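import Pool.Agent.Lib.MP_b9add9_lc.PHF.Stage2
import Pool.Agent.Lib.MP_80aaf5_lc.Few.Generic

/-!
# The requirement is open; the stage preserves old tests
-/

namespace ESY.PHF

open ESY ESY.Few Classical Set Topology
open ESY.PHI (LL sem_local)

/-- a property of the oracle that depends on finitely many strings is clopen -/
theorem clopen_bounded {Y : Type*} [TopologicalSpace Y] {Of : Y → Oracle} {L : ℕ}
    (h : ∀ s : List Bool, s.length ≤ L → IsClopen {y | Of y s = true}) (P : Oracle → Prop)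
    (hP : ∀ O O' : Oracle, (∀ s : List Bool, s.length ≤ L → O' s = O s) → (P O' ↔ P O)) :
    IsClopen {y | P (Of y)} := by
  refine clopen_of_local fun y₀ => ?_
  have h1 : ∀ s : List Bool, ∃ V : Set Y, IsOpen V ∧ y₀ ∈ V ∧
      (s.length ≤ L → ∀ y ∈ V, Of y s = Of y₀ s) := by
    intro s
    by_cases hs : s.length ≤ L
    · obtain ⟨V, hV, hy, hVP⟩ := local_of_clopen (h s hs) y₀
      exact ⟨V, hV, hy, fun _ y hyy => Bool.eq_iff_iff.2 (hVP y hyy)⟩
    · exact ⟨univ, isOpen_univ, mem_univ _, fun h' => absurd h' hs⟩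
  choose V hV hyV hVP using h1
  have hfin := List.finite_length_le Bool L
  refine ⟨⋂ s ∈ hfin.toFinset, V s, isOpen_biInter_finset fun s _ => hV s,
    by simpa using fun s _ => hyV s, fun y hy => ?_⟩
  refine hP _ _ fun s hs => ?_
  refine hVP s hs y ?_
  simp only [mem_iInter] at hy
  exact hy s (by simpa using hs)

theorem rqO_local (i : Machine × ℕ × List ℕ) (x : List Bool) : ∃ L : ℕ,
    ∀ O O' : Oracle, (∀ s : List Bool, s.length ≤ L → O' s = O s) →
      (RqO O' i x ↔ RqO O i x) := by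
  obtain ⟨L1, hL1⟩ := sem_local i.1 i.2.1 i.2.2 x
  obtain ⟨L2, hL2⟩ := ttb_local (2 * (i.2.2.length + 2)) x
  refine ⟨max L1 L2, fun O O' h => ?_⟩
  unfold RqO
  rw [hL1 O O' fun s hs => h s (hs.trans (le_max_left _ _)),
    hL2 O O' fun s hs => h s (hs.trans (le_max_right _ _))]

theorem isOpen_rqO {Y : Type*} [TopologicalSpace Y] {Of : Y → Oracle}
    (h : ∀ s : List Bool, IsClopen {y | Of y s = true}) (i : Machine × ℕ × List ℕ) :
    IsOpen {y | ∃ x, RqO (Of y) i x} := by
  have h1 : {y | ∃ x, RqO (Of y) i x} = ⋃ x, {y | RqO (Of y) i x} := by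
    ext y
    simp only [mem_ofPred_eq, mem_iUnion]
  rw [h1]
  refine isOpen_iUnion fun x => ?_
  obtain ⟨L, hL⟩ := rqO_local i x
  exact (clopen_bounded (L := L) (fun s _ => h s) (fun O => RqO O i x) hL).2

variable {pd0 : Pads} {D0 : Oracle} {n k l : ℕ}

/-- old tests -/
theorem test_stage (hp0 : Len pd0) {z : LL n k → Bool} {pads : (u : UU n l) → PU u} {N : ℕ}
    (hN : N ≤ n) (hfin : ∀ s : List Bool, N ≤ s.length → D0 s = false) {x : List Bool}
    (h : x ∈ Test (Ow pd0 D0 n k l z pads)) : x ∈ Test (world pd0 D0) := by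
  obtain ⟨w, hw, hj⟩ := h
  have hW := isWorld_Ow (D0 := D0) (n := n) (k := k) (l := l) hp0 z pads
  have hlen : ∀ j, (qstr x w j).tail.length = 2 * x.length + j := by
    intro j
    rw [List.length_tail, qstr_length x w j hw]
    omega
  have hfree : ∀ j ≤ x.length, Dz D0 n k z (qstr x w j).tail = true := by
    intro j hjn
    have h1 := hj j hjn
    rw [qstr_cons, hW.free] at h1
    rw [qstr_cons, List.tail_cons]
    exact h1
  have h0 : 2 * x.length < N := by
    have h1 := hfree 0 (Nat.zero_le _)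
    rw [Dz_neg] at h1
    · by_contra hcon
      rw [hfin _ (by rw [hlen]; omega)] at h1
      exact absurd h1 (by decide)
    · rintro ⟨ws, h2⟩
      have h3 := leaf_long h2
      rw [hlen] at h3
      omega
  refine ⟨w, hw, fun j hjn => ?_⟩
  have h1 := hfree j hjn
  rw [Dz_neg] at h1
  · rw [qstr_cons] at h1 ⊢
    rw [(isWorld hp0 D0).free]
    exact h1
  · rintro ⟨ws, h2⟩
    have h3 := leaf_long h2
    rw [hlen] at h3
    omega

/-- long strings of the free part -/
theorem Dz_long {z : LL n k → Bool} {N : ℕ} (hfin : ∀ s : List Bool, N ≤ s.length → D0 s = false)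
    {s : List Bool} (hs : N + Kd n k < s.length) : Dz D0 n k z s = false := by
  rw [Dz_neg]
  · exact hfin s (by omega)
  · rintro ⟨ws, h⟩
    have := leaf_long h
    omega

end ESY.PHF
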