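import Pool.Agent.Lib.MP_b9add9_lc.PHF.Dense
import Pool.Agent.Lib.MP_b9add9_lc.Uni.Fork

/-!
# Density of the requirements for the hierarchy in the worlds with one pad
-/

namespace ESY.PHF

open ESY ESY.Few Classical Set Topology
open ESY.Uni (O1 mk1 pd1 len_pd1 isWorld_O1 One O1_mk DOf_mk1 mk_agree1 KK Tame tame_bound inp
  inp_length)

/-- the requirement -/
def GoodH (i : Machine × ℕ × List ℕ) : Set Par := {y | ∃ x, RqO (O1 y) i x}

theorem isOpen_goodH (i : Machine × ℕ × List ℕ) : IsOpen (GoodH i) :=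
  isOpen_rqO (fun s => ESY.Uni.clopen_O1 _ s le_rfl) i

theorem dense_goodH (i : Machine × ℕ × List ℕ) (U : Set Par) (hU : IsOpen U)
    (hne : (U ∩ {y | Tame y}).Nonempty) : (U ∩ closure {y | Tame y} ∩ GoodH i).Nonempty := by
  obtain ⟨y₀, hy₀, ht⟩ := hne
  obtain ⟨N₀, hN₀⟩ := exists_size hU hy₀
  obtain ⟨N, hN0, hfin, hviol⟩ := tame_bound ht N₀
  obtain ⟨M, c0, cs⟩ := i
  obtain ⟨n, k, l, z, pads, hn, hn1, x, hx⟩ := stage (pd1 y₀) (len_pd1 y₀) (DOf y₀) N M c0 cs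
  have hp : Len (pz (pd1 y₀) n l pads) := len_pz (len_pd1 y₀) pads
  have h1 : One (pz (pd1 y₀) n l pads) := by
    intro e x
    by_cases h : n < (stm e x).length ∧ (stm e x).length ≤ l
    · rw [pz_pos pads ⟨stm e x, h.1, h.2, e, x, rfl⟩ rfl,
        pz_pos pads ⟨stm e x, h.1, h.2, e, x, rfl⟩ rfl]
    · rw [pz_neg pads _ h, pz_neg pads _ h]
      rfl
  have hO : O1 (mk1 y₀ (pz (pd1 y₀) n l pads) (Dz (DOf y₀) n k z) (sgOf y₀)) =
      Ow (pd1 y₀) (DOf y₀) n k l z pads := O1_mk _ hp h1 _ _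
  have hO0 : world (pd1 y₀) (DOf y₀) = O1 y₀ := rfl
  refine ⟨mk1 y₀ (pz (pd1 y₀) n l pads) (Dz (DOf y₀) n k z) (sgOf y₀), ⟨?_, ?_⟩, x, ?_⟩
  · refine hN₀ _ fun i hi => mk_agree1 y₀ _ _ _ N ?_ ?_ (fun _ _ _ _ => rfl) i (hi.trans hN0)
    · intro e x h
      exact pz_neg pads _ (by omega)
    · intro w hw
      refine Dz_neg z ?_
      rintro ⟨ws, h⟩
      have := leaf_long h
      omega
  · refine subset_closure ⟨fun a b x hx1 hx2 => ?_, N + Kd n k, fun s hs => ?_⟩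
    · rw [hO] at hx1 hx2 ⊢
      have h2 := test_stage (len_pd1 y₀) hn hfin hx1
      have h3 := test_stage (len_pd1 y₀) hn hfin hx2
      rw [hO0] at h2 h3
      obtain ⟨q, hq1, hq2, hq3, hq4, hq5⟩ := hviol a b x h2 h3
      exact ⟨q, hq1, (tr_short (len_pd1 y₀) z pads (by omega)).2 hq2,
        (tr_short (len_pd1 y₀) z pads (by omega)).2 hq3⟩
    · rw [DOf_mk1]
      exact Dz_long hfin hs
  · rw [hO]
    exact hx

end ESY.PHF
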