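import Pool.Agent.Lib.MP_b9add9_lc.PHF.DenseUni
import Pool.Agent.Lib.MP_b9add9_lc.Uni.Final

/-!
# Worlds with `NP = UP`, an infinite polynomial hierarchy, and no complete disjoint NP-pair
-/

namespace ESY.PHF

open ESY ESY.Few Set Topology Filter
open ESY.Uni (O1 Tame tame_zero GoodM GoodQ isOpen_goodM isOpen_goodQ dense_goodM dense_goodQ
  baire_closure up_of_world len_pd1 isWorld_O1)

/-- for generic parameters all the requirements hold, also those for the hierarchy -/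
theorem exists_generic1 (T : ℕ → ℕ → ℕ) (hT : Subexponential T) (k : ℕ → ℕ → ℕ)
    (hk : ∀ c, Sub fun n => 2 ^ k c n) :
    ∃ y ∈ closure {y | Tame y}, (∀ a b M c, y ∈ GoodM a b M (T c) ∧
      y ∈ GoodQ a b M (T c) (k c)) ∧ ∀ i, y ∈ GoodH i := by
  obtain ⟨y, hy, hyG⟩ := baire_closure {y | Tame y} ⟨_, tame_zero⟩
    (fun p : ((ℕ × ℕ × Machine × ℕ) × Bool) ⊕ (Machine × ℕ × List ℕ) =>
      match p with
      | .inl p => if p.2 = true then GoodM p.1.1 p.1.2.1 p.1.2.2.1 (T p.1.2.2.2)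
        else GoodQ p.1.1 p.1.2.1 p.1.2.2.1 (T p.1.2.2.2) (k p.1.2.2.2)
      | .inr i => GoodH i)
    (by
      rintro (⟨⟨a, b, M, c⟩, _ | _⟩ | i)
      · exact isOpen_goodQ a b M (T c) (k c)
      · exact isOpen_goodM a b M (T c)
      · exact isOpen_goodH i)
    (by
      rintro (⟨⟨a, b, M, c⟩, _ | _⟩ | i) U hU hne
      · exact dense_goodQ a b M (hT c) (hk c) U hU hne
      · exact dense_goodM a b M (hT c) U hU hne
      · exact dense_goodH i U hU hne)
  exact ⟨y, hy, fun a b M c => ⟨hyG (.inl ((a, b, M, c), true)),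
    hyG (.inl ((a, b, M, c), false))⟩, fun i => hyG (.inr i)⟩

theorem mainUni (T : ℕ → ℕ → ℕ) (hT : Subexponential T) (k : ℕ → ℕ → ℕ)
    (hk : ∀ c j : ℕ, ∀ᶠ n in atTop, j * k c n ≤ n) :
    ∃ O : Oracle, (∀ L, InNP O L → InUPk 1 O L) ∧ PHInfinite O ∧ (¬ ∃ A B, MComplete O A B) ∧
      ∀ A B, NPPair O A B → ∃ C D, NPPair O C D ∧
        ¬ MReduces T O C D A B ∧ ¬ QReduces T k O C D A B := by
  let T' : ℕ → ℕ → ℕ := fun c => if c % 2 = 0 then T (c / 2) else poly (c / 2)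
  let k' : ℕ → ℕ → ℕ := fun c => k (c / 2)
  have hT' : Subexponential T' := by
    intro c k
    by_cases h : c % 2 = 0
    · simpa only [T', h, if_true] using hT (c / 2) k
    · simpa only [T', h, if_false] using subexponential_poly (c / 2) k
  have hk' : ∀ c, Sub fun n => 2 ^ k' c n := by
    intro c j
    filter_upwards [hk (c / 2) j] with n hn
    rw [← pow_mul, mul_comm]
    exact Nat.pow_le_pow_right (by norm_num) hn
  have h0 : ∀ c, T' (2 * c) = T c := by
    intro c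
    simp [T']
  have hk0 : ∀ c, k' (2 * c) = k c := by
    intro c
    simp [k']
  have h1 : ∀ c, T' (2 * c + 1) = poly c := by
    intro c
    have h2 : (2 * c + 1) % 2 ≠ 0 := by omega
    have h3 : (2 * c + 1) / 2 = c := by omega
    simp only [T', h2, if_false, h3]
  obtain ⟨y, hy, hG, hH⟩ := exists_generic1 T' hT' k' hk'
  refine ⟨O1 y, fun L hL => ?_, phInfinite hH, ?_, fun A B hAB => ?_⟩
  · obtain ⟨e, he⟩ := (ESY.Uni.inNP_iff _ _).1 hL
    exact up_of_world (len_pd1 y) (fun _ _ => rfl) (isWorld_O1 y) he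
  · rintro ⟨A, B, hAB, hc⟩
    obtain ⟨C, D, hCD, h2, -⟩ := ESY.Uni.final hy hG hAB
    refine h2 ?_
    obtain ⟨M, c, hM⟩ := hc C D hCD
    refine ⟨M, 2 * c + 1, fun x => ?_⟩
    rw [h1]
    exact hM x
  · obtain ⟨C, D, hCD, h2, h3⟩ := ESY.Uni.final hy hG hAB
    refine ⟨C, D, hCD, ?_, ?_⟩
    · rintro ⟨M, c, hM⟩
      refine h2 ⟨M, 2 * c, fun x => ?_⟩
      rw [h0]
      exact hM x
    · intro hQ
      refine h3 fun S hS => ?_
      obtain ⟨M, c, hM⟩ := hQ S hS
      refine ⟨M, 2 * c, fun x => ?_⟩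
      rw [h0, hk0]
      exact hM x

end ESY.PHF
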