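import Pool.Agent.Lib.MP_80aaf5_lc.PH.Force
import Pool.Agent.Lib.MP_80aaf5_lc.helper83.Hard

/-!
# The hard languages over a base language
-/

namespace ESY.PHF

open ESY ESY.Conv
open ESY.PHI (nest nest_append nest_length pair_length leaf leaf_two tr tr_surj Lam Fh Sem
  sem_local inSigma_iff)

/-- the hard languages over the base language `b` -/
def TTb (b : Set (List Bool)) : ℕ → Set (List Bool)
  | 0 => b
  | k + 1 => {x | ∃ w : List Bool, w.length ≤ poly 2 x.length ∧ pair x w ∉ TTb b k}

/-- the bound for the lengths of the nested pairs -/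
def stp (L : ℕ) : ℕ := 2 * L + 1 + poly 2 L

/-- the value of the hard language at the end of a stage -/
theorem evalb {b : Set (List Bool)} {n : ℕ} {x : List Bool} (hx : x.length = n) : ∀ (m i : ℕ)
    (z : Lam n m → Bool), 2 * 4 ^ m ≤ n →
    (∀ ws : List (List Bool), ws.length = 2 * m → (nest x ws).length ≤ stp^[2 * m] n →
      (nest x ws ∈ TTb b i ↔ z (leaf n m ws) = false)) →
    (x ∈ TTb b (2 * m + i) ↔ ¬ Fh n m z) := by
  classical
  intro m
  induction m with
  | zero =>
    intro i z _ h
    have h1 := h [] rfl (le_of_eq hx)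
    rw [Nat.mul_zero, Nat.zero_add]
    exact h1.trans (Bool.not_eq_true _).symm.to_iff
  | succ m ih =>
    intro i z hn h
    have hn' : 2 * 4 ^ m ≤ n := by
      rw [pow_succ] at hn
      omega
    have e : 2 * (m + 1) + i = 2 * m + (i + 2) := by ring
    rw [e]
    refine ih (i + 2) (fun j => decide (∀ g, ∃ q, z ((j, g), q) = true)) hn' fun ws hws hlw => ?_
    have hlen : ∀ (y : List Bool), n ≤ y.length → 2 * 4 ^ m * n ≤ poly 2 y.length := by
      intro y hy
      have h1 : 2 * 4 ^ m * n ≤ n * n := Nat.mul_le_mul_right _ hn'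
      have h2 : n * n ≤ y.length * y.length := Nat.mul_le_mul hy hy
      unfold poly
      nlinarith
    have hl := (nest_length x ws).1
    have e2 : (nest x ws ∈ TTb b (i + 2)) ↔ ∃ w : List Bool,
        w.length ≤ poly 2 (nest x ws).length ∧
        ∀ w' : List Bool, w'.length ≤ poly 2 (nest x (ws ++ [w])).length →
          nest x (ws ++ [w] ++ [w']) ∈ TTb b i := by
      show (∃ w : List Bool, w.length ≤ poly 2 (nest x ws).length ∧
        ¬ ∃ w' : List Bool, w'.length ≤ poly 2 (pair (nest x ws) w).length ∧
          ¬ pair (pair (nest x ws) w) w' ∈ TTb b i) ↔ _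
      refine exists_congr fun w => and_congr_right fun _ => ?_
      push Not
      simp only [nest_append]
    rw [e2]
    have hmono : ∀ a c : ℕ, a ≤ c → stp a ≤ stp c := by
      intro a c hac
      have := ESY.PHI.poly_mono (c := 2) hac
      unfold stp
      omega
    have e3 : ∀ w w' : List Bool, w.length ≤ poly 2 (nest x ws).length →
        w'.length ≤ poly 2 (nest x (ws ++ [w])).length →
        (nest x (ws ++ [w] ++ [w']) ∈ TTb b i ↔
        z ((leaf n m ws, tr (4 ^ m * n) w), tr (2 * 4 ^ m * n) w') = false) := by
      intro w w' hw hw'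
      have l1 : (nest x (ws ++ [w])).length ≤ stp (stp^[2 * m] n) := by
        refine le_trans ?_ (hmono _ _ hlw)
        rw [nest_append, pair_length]
        unfold stp
        omega
      have l2 : (nest x (ws ++ [w] ++ [w'])).length ≤ stp (stp (stp^[2 * m] n)) := by
        refine le_trans ?_ (hmono _ _ l1)
        rw [nest_append, pair_length]
        unfold stp
        omega
      rw [h (ws ++ [w] ++ [w']) (by
        simp only [List.length_append, List.length_singleton, hws]; ring) (by
        have e4 : 2 * (m + 1) = 2 * m + 1 + 1 := by ring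
        rw [e4, Function.iterate_succ_apply', Function.iterate_succ_apply']
        exact l2), leaf_two n m ws w w' hws]
    rw [decide_eq_false_iff_not]
    push Not
    constructor
    · rintro ⟨w, hw0, hw⟩
      refine ⟨tr (4 ^ m * n) w, fun q => ?_⟩
      have hq : (List.ofFn q).length ≤ poly 2 (nest x (ws ++ [w])).length := by
        rw [List.length_ofFn, nest_append]
        refine hlen _ ?_
        rw [pair_length]
        omega
      have h1 := (e3 w (List.ofFn q) hw0 hq).1 (hw _ hq)
      rw [tr_surj] at h1
      rw [h1]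
      decide
    · rintro ⟨g, hg⟩
      have hg0 : (List.ofFn g).length ≤ poly 2 (nest x ws).length := by
        rw [List.length_ofFn]
        have := hlen (nest x ws) (by omega)
        refine le_trans ?_ this
        exact Nat.mul_le_mul_right _ (by omega)
      refine ⟨List.ofFn g, hg0, fun w' hw' => ?_⟩
      rw [e3 _ _ hg0 hw', tr_surj]
      exact (Bool.not_eq_true _).mp (hg _)

/-- the string of the free part for `s` -/
def fs (s : List Bool) : List Bool := app s [false]

theorem fs_length (s : List Bool) : (fs s).length = 2 * s.length + 1 := by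
  unfold fs
  rw [app_len]
  simp

theorem fs_inj {s s' : List Bool} (h : fs s = fs s') : s = s' :=
  (ESY.PHI.app_inj' h).1

/-- the base language -/
def bs (O : Oracle) : Set (List Bool) := {s | O (true :: fs s) = true}

theorem ttb_local : ∀ (k : ℕ) (x : List Bool), ∃ L : ℕ,
    ∀ O O' : Oracle, (∀ s : List Bool, s.length ≤ L → O' s = O s) →
      (x ∈ TTb (bs O') k ↔ x ∈ TTb (bs O) k) := by
  intro k
  induction k with
  | zero =>
    intro x
    refine ⟨2 * x.length + 2, fun O O' h => ?_⟩
    show O' _ = true ↔ O _ = true
    rw [h _ (by rw [List.length_cons, fs_length])]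
  | succ k ih =>
    intro x
    choose L hL using ih
    have hfin := List.finite_length_le Bool (poly 2 x.length)
    refine ⟨hfin.toFinset.sup fun w => L (pair x w), fun O O' h => ?_⟩
    refine exists_congr fun w => and_congr_right fun hw => not_congr ?_
    refine hL _ O O' fun s hs => h s (hs.trans ?_)
    exact Finset.le_sup (f := fun w => L (pair x w)) (by simpa using hw)

/-! ### the base machine -/

/-- move the input with marks to stack 1, ask -/
def bsCode : Fin 9 → Instr 2 9 := ![
    .push 1 false 1,     -- 0
    .pop 0 5 2 3,        -- 1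
    .push 1 false 4,     -- 2
    .push 1 true 4,      -- 3
    .push 1 true 1,      -- 4
    .push 1 true 6,      -- 5
    .query 1 8 7,        -- 6
    .halt true,          -- 7
    .halt false]         -- 8

variable {O : Oracle}

section pops
variable {q : ℕ} {code : Fin (q + 1) → Instr 2 (q + 1)} {s t t' t'' : Fin (q + 1)}

theorem pop0_nil' (h : code s = .pop 0 t t' t'') (c : List Bool) :
    Rch O 1 (Conv.cf code s [] c) (Conv.cf code t [] c) [] :=
  Rch.one (step_pop_nil (c := Conv.cf code s [] c) h rfl)
    (asked1_pop (c := Conv.cf code s [] c) h)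

theorem pop0_false' (h : code s = .pop 0 t t' t'') (a c : List Bool) :
    Rch O 1 (Conv.cf code s (false :: a) c) (Conv.cf code t' a c) [] :=
  Rch.one ((step_pop_false (c := Conv.cf code s (false :: a) c) h rfl).trans
    (congrArg (Cfg.mk (M := mk2 code) t') (u0 _ c a)))
    (asked1_pop (c := Conv.cf code s (false :: a) c) h)

theorem pop0_true' (h : code s = .pop 0 t t' t'') (a c : List Bool) :
    Rch O 1 (Conv.cf code s (true :: a) c) (Conv.cf code t'' a c) [] :=
  Rch.one ((step_pop_true (c := Conv.cf code s (true :: a) c) h rfl).trans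
    (congrArg (Cfg.mk (M := mk2 code) t'') (u0 _ c a)))
    (asked1_pop (c := Conv.cf code s (true :: a) c) h)

end pops

theorem bs_loop : ∀ w x : List Bool,
    (step O (mk2 bsCode))^[3 * w.length + 1] (Conv.cf bsCode 1 w x) =
      Conv.cf bsCode 5 [] (app w x) := by
  intro w
  induction w with
  | nil => intro x; exact (pop0_nil' (code := bsCode) (s := 1) (t' := 2) (t'' := 3) rfl x).1
  | cons d w ih =>
    intro x
    have h2 := ih (true :: d :: x)
    have e : 3 * (d :: w).length + 1 = (3 * w.length + 1) + (1 + 1 + 1) := by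
      simp only [List.length_cons]; ring
    rw [e, Function.iterate_add_apply]
    cases d
    · rw [(((pop0_false' (code := bsCode) (s := 1) (t := 5) (t' := 2) (t'' := 3) rfl w x).trans
        (push1 (code := bsCode) (s := 2) (t := 4) (b := false) rfl _ _)).trans
        (push1 (s := 4) (t := 1) (b := true) rfl _ _)).1]
      exact h2
    · rw [(((pop0_true' (code := bsCode) (s := 1) (t := 5) (t' := 2) (t'' := 3) rfl w x).trans
        (push1 (code := bsCode) (s := 3) (t := 4) (b := true) rfl _ _)).trans
        (push1 (s := 4) (t := 1) (b := true) rfl _ _)).1]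
      exact h2

theorem inP_bs (O : Oracle) : InP O (bs O) := by
  obtain ⟨c, hc⟩ := ((PB.const 3).mul PB.id).add (PB.const 5)
  refine ⟨mk2 bsCode, c, fun x => ?_⟩
  obtain ⟨T, hT⟩ : ∃ T, poly c x.length = T + 1 + 1 + (3 * x.length + 1) + 1 :=
    ⟨poly c x.length - (3 * x.length + 4), by
      have : 3 * x.length + 5 ≤ poly c x.length := hc x.length
      omega⟩
  unfold AcceptsIn
  rw [hT, start_mk2, Function.iterate_add_apply,
    (push1 (code := bsCode) (s := 0) (t := 1) (b := false) rfl _ _).1,
    Function.iterate_add_apply, bs_loop, Function.iterate_add_apply,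
    (push1 (code := bsCode) (s := 5) (t := 6) (b := true) rfl _ _).1,
    Function.iterate_succ_apply]
  show O (true :: fs x) = true ↔ _
  by_cases h : O (true :: fs x) = true
  · have e : step O (mk2 bsCode) (Conv.cf bsCode 6 [] (true :: app x [false])) =
        Conv.cf bsCode 7 [] (true :: app x [false]) :=
      step_query_yes (M := mk2 bsCode) (c := Conv.cf bsCode 6 [] (true :: app x [false]))
        (i := (1 : Fin 2)) (n := (8 : Fin 9)) (n' := (7 : Fin 9)) rfl h
    rw [e, (stay (code := bsCode) (s := 7) (b := true) rfl _ _ T).1]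
    exact ⟨fun _ => rfl, fun _ => h⟩
  · have h' : O (true :: fs x) = false := by simpa using h
    have e : step O (mk2 bsCode) (Conv.cf bsCode 6 [] (true :: app x [false])) =
        Conv.cf bsCode 8 [] (true :: app x [false]) :=
      step_query_no (M := mk2 bsCode) (c := Conv.cf bsCode 6 [] (true :: app x [false]))
        (i := (1 : Fin 2)) (n := (8 : Fin 9)) (n' := (7 : Fin 9)) rfl h'
    rw [e, (stay (code := bsCode) (s := 8) (b := false) rfl _ _ T).1]
    exact ⟨fun hh => absurd hh h, fun hh => absurd (Instr.halt.inj hh) (by decide)⟩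

theorem inSigma_TTb (O : Oracle) : ∀ k, InSigma k O (TTb (bs O) k) := by
  intro k
  induction k with
  | zero => exact inP_bs O
  | succ k ih => exact ⟨_, ih, 2, fun _ => Iff.rfl⟩

/-- the requirement -/
def RqO (O : Oracle) (i : Machine × ℕ × List ℕ) (x : List Bool) : Prop :=
  ¬ (Sem O i.1 i.2.1 i.2.2 x ↔ x ∈ TTb (bs O) (2 * (i.2.2.length + 2)))

theorem phInfinite {O : Oracle} (hd : ∀ i, ∃ x, RqO O i x) : PHInfinite O := by
  intro k
  by_contra hcon
  push Not at hcon
  have h1 : ∀ j L, InSigma (k + j) O L → InSigma k O L := by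
    intro j
    induction j with
    | zero => exact fun L h => h
    | succ j ih =>
      rintro L ⟨L', hL', c, h⟩
      exact hcon L ⟨L', ih L' hL', c, h⟩
  have h2 : InSigma k O (TTb (bs O) (2 * (k + 2))) := by
    refine h1 (k + 4) _ ?_
    have e : k + (k + 4) = 2 * (k + 2) := by ring
    rw [e]
    exact inSigma_TTb _ _
  obtain ⟨M, c0, cs, hcs, h⟩ := (inSigma_iff _ _ _).1 h2
  obtain ⟨x, hx⟩ := hd (M, c0, cs)
  apply hx
  show _ ↔ x ∈ TTb (bs O) (2 * (cs.length + 2))
  rw [hcs]
  exact (h x).symm

end ESY.PHF
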