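import Pool.Agent.Lib.MP_80aaf5_lc.PH.Stage2
import Pool.Agent.Lib.MP_80aaf5_lc.Few.Closure
import Pool.Agent.Lib.MP_b9add9_lc.PHF.Hier

/-!
# One stage, for the worlds with a free part
-/

namespace ESY.PHF

open ESY ESY.Few Classical
open ESY.PHI (II GG QQ LL lf x0 x0_length nest nest_inj nest_length leaf zr zr_iff Lam
  Bit Lit TA Sys LT IsVal RkOk SzOk pst mem_pst TA.loc TA.sel TA.pad Crt
  sum_biUnion_le' biUnion_inst)

set_option linter.unusedSectionVars false

/-- the statements that matter in the stage -/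
abbrev UU (n l : ℕ) : Type :=
  {u : List Bool // n < u.length ∧ u.length ≤ l ∧ ∃ e x, u = stm e x}

/-- their pads -/
abbrev PU {n l : ℕ} (u : UU n l) : Type := Fin (u.1.length ^ 2) → Bool

/-- the bits -/
abbrev BB (n k l : ℕ) : Type := Bit (II n k) (GG n k) (QQ n k) (fun u : UU n l => PU u)

/-- the largest length of a string of the free part in the stage -/
def Kd (n k : ℕ) : ℕ := 2 * stp^[2 * (k + 2)] n + 1

/-- the strings of the free part in the stage -/
def IsLf (n k : ℕ) (w : List Bool) (ws : List (List Bool)) : Prop :=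
  ws.length = 2 * (k + 2) ∧ w = fs (nest (x0 n) ws) ∧ w.length ≤ Kd n k

/-- the free part of the stage -/
noncomputable def Dz (D0 : Oracle) (n k : ℕ) (z : LL n k → Bool) : Oracle := fun w =>
  if h : ∃ ws : List (List Bool), IsLf n k w ws then !(z (lf n k h.choose)) else D0 w

/-- the pads of the stage -/
noncomputable def pz (pd0 : Pads) (n l : ℕ) (pads : (u : UU n l) → PU u) : Pads := fun e x i =>
  if h : n < (stm e x).length ∧ (stm e x).length ≤ l then
    List.ofFn (pads ⟨stm e x, h.1, h.2, e, x, rfl⟩) else pd0 e x i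

variable {pd0 : Pads} {D0 : Oracle} {n k l : ℕ}

theorem Dz_leaf (z : LL n k → Bool) {w : List Bool} {ws : List (List Bool)}
    (h : IsLf n k w ws) : Dz D0 n k z w = !(z (lf n k ws)) := by
  have hx : ∃ ws' : List (List Bool), IsLf n k w ws' := ⟨ws, h⟩
  have h1 : hx.choose = ws :=
    (nest_inj (x0 n) _ _ (h.1.trans hx.choose_spec.1.symm)
      (fs_inj (h.2.1.symm.trans hx.choose_spec.2.1))).symm
  show (if h : _ then _ else _) = _
  rw [dif_pos hx, h1]

theorem Dz_neg (z : LL n k → Bool) {w : List Bool} (h : ¬ ∃ ws, IsLf n k w ws) :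
    Dz D0 n k z w = D0 w := by
  show (if h : _ then _ else _) = _
  rw [dif_neg h]

theorem leaf_long {w : List Bool} {ws : List (List Bool)} (h : IsLf n k w ws) :
    4 * n + 3 ≤ w.length ∧ w.length ≤ Kd n k ∧ w.length % 2 = 1 := by
  obtain ⟨h1, h2, h3⟩ := h
  have h4 : ws ≠ [] := by
    rintro rfl
    simp at h1
  have h5 := (nest_length (x0 n) ws).2 h4
  rw [x0_length] at h5
  have h6 := fs_length (nest (x0 n) ws)
  rw [← h2] at h6
  omega

theorem pz_pos (pads : (u : UU n l) → PU u) (u : UU n l) {e : ℕ} {x : List Bool}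
    (h : u.1 = stm e x) (i : Bool) : pz pd0 n l pads e x i = List.ofFn (pads u) := by
  obtain ⟨u, h1, h2, h3⟩ := u
  change u = stm e x at h
  subst h
  unfold pz
  rw [dif_pos ⟨h1, h2⟩]

theorem pz_neg (pads : (u : UU n l) → PU u) {e : ℕ} {x : List Bool} (i : Bool)
    (h : ¬ (n < (stm e x).length ∧ (stm e x).length ≤ l)) : pz pd0 n l pads e x i = pd0 e x i := by
  unfold pz
  rw [dif_neg h]

theorem len_pz (hp0 : Len pd0) (pads : (u : UU n l) → PU u) : Len (pz pd0 n l pads) := by
  intro e x i
  by_cases h : n < (stm e x).length ∧ (stm e x).length ≤ l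
  · rw [pz_pos pads ⟨stm e x, h.1, h.2, e, x, rfl⟩ rfl, List.length_ofFn]
  · rw [pz_neg pads i h]
    exact hp0 e x i

/-- the world of the stage -/
noncomputable def Ow (pd0 : Pads) (D0 : Oracle) (n k l : ℕ) (z : LL n k → Bool)
    (pads : (u : UU n l) → PU u) : Oracle := world (pz pd0 n l pads) (Dz D0 n k z)

theorem isWorld_Ow (hp0 : Len pd0) (z : LL n k → Bool) (pads : (u : UU n l) → PU u) :
    IsWorld (pz pd0 n l pads) (Dz D0 n k z) (Ow pd0 D0 n k l z pads) :=
  isWorld (len_pz hp0 pads) _

/-- statements are not affected when they are short -/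
theorem tr_short (hp0 : Len pd0) (z : LL n k → Bool) (pads : (u : UU n l) → PU u) {e : ℕ}
    {x : List Bool} (h : (stm e x).length ≤ n) :
    Tr (Ow pd0 D0 n k l z pads) e x ↔ Tr (world pd0 D0) e x := by
  refine tr_congr ?_
  refine (short_agree (len_pz hp0 pads) hp0 (isWorld_Ow hp0 z pads) (isWorld hp0 D0) n
    (fun e x i h => pz_neg pads i fun h' => by omega) (fun s hs => ?_)).mono (by omega)
  refine Dz_neg z ?_
  rintro ⟨ws, h1⟩
  have := leaf_long h1
  omega

/-! ### the roles of the strings -/

/-- the code string of a position -/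
def cstr (y : Σ u : UU n l, PU u) : List Bool := false :: Few.cs (List.ofFn y.2) y.1.1

theorem cstr_inj {y y' : Σ u : UU n l, PU u} (h : cstr y = cstr y') : y = y' := by
  unfold cstr at h
  obtain ⟨h3, h4⟩ := cs_inj (List.cons.inj h).2
  obtain ⟨u, p⟩ := y
  obtain ⟨u', p'⟩ := y'
  obtain rfl : u = u' := Subtype.ext h4
  have h5 : p = p' := List.ofFn_injective h3
  rw [h5]

/-- the role of a string: its bit, if it depends on the parameters of the stage -/
noncomputable def role (n k l : ℕ) (r : List Bool) : Option (BB n k l) :=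
  if h : ∃ ws : List (List Bool), ∃ w, r = true :: w ∧ IsLf n k w ws then
    some (.inl (lf n k h.choose))
  else if h : ∃ y : (Σ u : UU n l, PU u), r = cstr y then some (.inr h.choose)
  else none

theorem role_leaf {w : List Bool} {ws : List (List Bool)} (h : IsLf n k w ws) :
    role n k l (true :: w) = some (.inl (lf n k ws)) := by
  have hx : ∃ ws' : List (List Bool), ∃ w', true :: w = true :: w' ∧ IsLf n k w' ws' :=
    ⟨ws, w, rfl, h⟩
  have h1 : hx.choose = ws := by
    obtain ⟨w', h2, h3⟩ := hx.choose_spec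
    obtain rfl := (List.cons.inj h2).2
    exact (nest_inj (x0 n) _ _ (h.1.trans h3.1.symm)
      (fs_inj (h.2.1.symm.trans h3.2.1))).symm
  unfold role
  rw [dif_pos hx, h1]

theorem role_code (y : Σ u : UU n l, PU u) : role n k l (cstr y) = some (.inr y) := by
  have hn : ¬ ∃ ws : List (List Bool), ∃ w, cstr y = true :: w ∧ IsLf n k w ws := by
    rintro ⟨ws, w, h, -⟩
    exact absurd (List.cons.inj h).1 (by decide)
  have hx : ∃ y' : (Σ u : UU n l, PU u), cstr y = cstr y' := ⟨y, rfl⟩
  have h1 : hx.choose = y := (cstr_inj hx.choose_spec).symm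
  unfold role
  rw [dif_neg hn, dif_pos hx, h1]

theorem role_spec {r : List Bool} {y : Σ u : UU n l, PU u} (h : role n k l r = some (.inr y)) :
    r = cstr y := by
  unfold role at h
  by_cases h1 : ∃ ws : List (List Bool), ∃ w, r = true :: w ∧ IsLf n k w ws
  · rw [dif_pos h1] at h
    cases h
  rw [dif_neg h1] at h
  by_cases h2 : ∃ y : (Σ u : UU n l, PU u), r = cstr y
  · rw [dif_pos h2] at h
    have h3 := Sum.inr.inj (Option.some.inj h)
    rw [← h3]
    exact h2.choose_spec
  · rw [dif_neg h2] at h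
    cases h

theorem role_len {r : List Bool} {y : Σ u : UU n l, PU u} (h : role n k l r = some (.inr y)) :
    r.length = 2 * y.1.1.length ^ 2 + y.1.1.length + 2 := by
  rw [role_spec h]
  unfold cstr
  rw [List.length_cons, cs_length, List.length_ofFn]
  ring

/-- the sign of a bit -/
def sg : BB n k l → Bool → Bool
  | .inl _, a => !a
  | .inr _, a => a

/-- the oracle given by the bits -/
noncomputable def Ob (pd0 : Pads) (D0 : Oracle) (β : BB n k l → Bool) : Oracle := fun r =>
  match role n k l r with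
  | some b => sg b (β b)
  | none => world pd0 D0 r

/-- truth of a statement given by its string -/
def Trs (O : Oracle) (u : List Bool) : Prop := ∃ e x, u = stm e x ∧ Tr O e x

theorem Trs_stm {O : Oracle} {e : ℕ} {x : List Bool} : Trs O (stm e x) ↔ Tr O e x := by
  constructor
  · rintro ⟨e', x', h, h'⟩
    obtain ⟨rfl, rfl⟩ := stm_inj h
    exact h'
  · exact fun h => ⟨e, x, rfl, h⟩

/-- the bits of the oracle of the stage -/
noncomputable def bt (pd0 : Pads) (D0 : Oracle) (z : LL n k → Bool)
    (pads : (u : UU n l) → PU u) : BB n k l → Bool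
  | .inl b => z b
  | .inr y => decide (pads y.1 = y.2 ∧ Trs (Ow pd0 D0 n k l z pads) y.1.1)

theorem Ow_eq (hp0 : Len pd0) (z : LL n k → Bool) (pads : (u : UU n l) → PU u) {r : List Bool}
    (hr : r.length ≤ 2 * l) :
    Ow pd0 D0 n k l z pads r = Ob pd0 D0 (bt pd0 D0 z pads) r := by
  have hW := isWorld_Ow (D0 := D0) hp0 z pads
  have hW0 := isWorld hp0 D0
  unfold Ob
  by_cases h1 : ∃ ws : List (List Bool), ∃ w, r = true :: w ∧ IsLf n k w ws
  · obtain ⟨ws, w, rfl, h2⟩ := h1
    rw [role_leaf h2, hW.free, Dz_leaf z h2]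
    rfl
  by_cases h2 : ∃ y : (Σ u : UU n l, PU u), r = cstr y
  · obtain ⟨y, rfl⟩ := h2
    rw [role_code y]
    obtain ⟨u, p⟩ := y
    obtain ⟨e, x, hv⟩ := u.2.2.2
    show _ = decide _
    rw [Bool.eq_iff_iff, decide_eq_true_iff]
    have h3 := hW.code_iff e x (List.ofFn p)
    rw [← hv] at h3
    have h4 : Trs (Ow pd0 D0 n k l z pads) u.1 ↔ Tr (Ow pd0 D0 n k l z pads) e x := by
      rw [hv]
      exact Trs_stm
    refine h3.trans (and_congr ?_ h4.symm)
    constructor
    · rintro ⟨i, hi⟩
      rw [pz_pos pads u hv] at hi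
      exact (List.ofFn_injective hi).symm
    · intro h5
      refine ⟨true, ?_⟩
      rw [pz_pos pads u hv]
      change pads u = p at h5
      rw [h5]
  have h3 : role n k l r = none := by
    unfold role
    rw [dif_neg h1, dif_neg h2]
  rw [h3]
  clear h3
  match r, hr, h1, h2 with
  | [], _, _, _ => rw [hW.nil]; exact hW0.nil.symm
  | true :: w, _, h1, _ =>
    show _ = world pd0 D0 _
    rw [hW.free, hW0.free]
    refine Dz_neg z ?_
    rintro ⟨ws, h⟩
    exact h1 ⟨ws, w, rfl, h⟩
  | false :: r', hr, _, h2 =>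
    show _ = world pd0 D0 _
    rw [Bool.eq_iff_iff, hW.code, hW0.code]
    refine exists_congr fun e => exists_congr fun x => exists_congr fun i => ?_
    constructor
    · rintro ⟨h4, h5⟩
      have h6 : ¬ (n < (stm e x).length ∧ (stm e x).length ≤ l) := by
        intro h6
        refine h2 ⟨⟨⟨stm e x, h6.1, h6.2, e, x, rfl⟩, pads _⟩, ?_⟩
        rw [h4, pz_pos pads ⟨stm e x, h6.1, h6.2, e, x, rfl⟩ rfl]
        rfl
      have h7 := Few.code_len (len_pz hp0 pads) e x i
      rw [← h4] at h7
      have h8 : (stm e x).length ≤ n := by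
        by_contra h8
        have h9 := two_le_stm e x
        have h10 : (stm e x).length ≤ (stm e x).length ^ 2 :=
          Nat.le_self_pow (by norm_num) _
        exact h6 ⟨by omega, by omega⟩
      rw [pz_neg pads i h6] at h4
      exact ⟨h4, (tr_short hp0 z pads h8).1 h5⟩
    · rintro ⟨h4, h5⟩
      have h7 := Few.code_len hp0 e x i
      rw [← h4] at h7
      have h10 : (stm e x).length ≤ (stm e x).length ^ 2 :=
        Nat.le_self_pow (by norm_num) _
      have h6 : ¬ (n < (stm e x).length ∧ (stm e x).length ≤ l) := by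
        intro h6
        refine h2 ⟨⟨⟨stm e x, h6.1, h6.2, e, x, rfl⟩, fun j => (pd0 e x i).getD j false⟩, ?_⟩
        rw [h4]
        unfold cstr
        congr 2
        refine List.ext_getElem ?_ fun j h8 h9 => ?_
        · rw [List.length_ofFn]
          exact hp0 e x i
        · rw [List.getElem_ofFn]
          exact (List.getD_eq_getElem _ _ h8).symm
      have h8 : (stm e x).length ≤ n := by
        by_contra h8
        exact h6 ⟨by omega, by omega⟩
      refine ⟨?_, (tr_short hp0 z pads h8).2 h5⟩
      rw [pz_neg pads i h6]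
      exact h4

end ESY.PHF
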