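import Pool.Agent.Lib.MP_b9add9_lc.PHF.Sys

/-!
# The stage: one requirement can be met above every length
-/

namespace ESY.PHF

open ESY ESY.Few Classical Filter
open ESY.PHI (II GG QQ LL lf x0 x0_length nest nest_inj nest_length leaf zr zr_iff Lam
  Bit Lit TA Sys LT IsVal RkOk SzOk pst mem_pst TA.loc TA.sel TA.pad Crt
  sum_biUnion_le' biUnion_inst card_Lam ratio_le card_short sum_short Alt alt_congr nxt Wd nl
  nest_le poly_mono bnd sem_alt Fh Fh_succ Sem sub_bnd sub_nl Crt.mono switching noAlt)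

set_option linter.unusedSectionVars false

noncomputable instance (n l : ℕ) : Fintype (UU n l) :=
  have : Finite (UU n l) :=
    ((List.finite_length_le Bool l).subset (fun _ h => h.2.1)).to_subtype
  Fintype.ofFinite _

/-- the parameters of the stage -/
theorem params (l0 c0 : ℕ) (cs : List ℕ) : ∃ n B l : ℕ, l0 ≤ n ∧ 2 * 4 ^ (cs.length + 2) ≤ n ∧
    B = bnd cs n ∧ l = nl B n cs.length + poly c0 (nl B n cs.length) + 1 ∧
    128 * (l * l + ((B + 1) * cs.length + 1) + 1) ^ 3 ≤ 2 ^ n ∧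
    32 * ((2 * l ^ 2 + 1) * l + 1) * (2 * l ^ 2) * (l + 3) ≤ 2 ^ n := by
  have hB : Sub fun n => bnd cs n := sub_bnd cs sub_id
  have hN : Sub fun n => nl (bnd cs n) n cs.length := sub_nl hB _
  have hl : Sub fun n => nl (bnd cs n) n cs.length + poly c0 (nl (bnd cs n) n cs.length) + 1 :=
    sub_add (sub_add hN (sub_poly hN c0)) (sub_const 1)
  obtain ⟨L, hL⟩ : ∃ L : ℕ → ℕ, L = fun n => nl (bnd cs n) n cs.length +
    poly c0 (nl (bnd cs n) n cs.length) + 1 := ⟨_, rfl⟩
  rw [← hL] at hl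
  have h1 : Sub fun n => 128 * (L n * L n + ((bnd cs n + 1) * cs.length + 1) + 1) ^ 3 :=
    sub_mul (sub_const _) (sub_pow (sub_add (sub_add (sub_mul hl hl) (sub_add (sub_mul
      (sub_add hB (sub_const 1)) (sub_const _)) (sub_const 1))) (sub_const 1)) 3)
  have h2 : Sub fun n => 32 * ((2 * L n ^ 2 + 1) * L n + 1) * (2 * L n ^ 2) * (L n + 3) :=
    sub_mul (sub_mul (sub_mul (sub_const _) (sub_add (sub_mul (sub_add (sub_mul (sub_const _)
      (sub_pow hl 2)) (sub_const 1)) hl) (sub_const 1))) (sub_mul (sub_const _) (sub_pow hl 2)))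
      (sub_add hl (sub_const 3))
  obtain ⟨n, h3, h4, h5, h6⟩ := ((h1 1).and ((h2 1).and ((eventually_ge_atTop l0).and
    (eventually_ge_atTop (2 * 4 ^ (cs.length + 2)))))).exists
  simp only [pow_one] at h3 h4
  subst hL
  exact ⟨n, _, _, h5, h6, rfl, rfl, h3, h4⟩

/-- **One requirement can be met above every length.** -/
theorem stage (pd0 : Pads) (hp0 : Len pd0) (D0 : Oracle) (l0 : ℕ) (M : Machine) (c0 : ℕ)
    (cs : List ℕ) : ∃ (n k l : ℕ) (z : LL n k → Bool) (pads : (u : UU n l) → PU u),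
      l0 ≤ n ∧ 1 ≤ n ∧ ∃ x, RqO (Ow pd0 D0 n k l z pads) (M, c0, cs) x := by
  obtain ⟨n, B, l, hn0, hn, hB, hl, hs, hδ⟩ := params l0 c0 cs
  set k := cs.length with hk
  by_contra hcon
  push Not at hcon
  have hl1 : 1 ≤ l := by omega
  have hn1 : 1 ≤ n := by
    have : 0 < 2 * 4 ^ (k + 2) := by positivity
    omega
  have hcI : 2 ^ n * Fintype.card (II n k) = 2 ^ (4 ^ (k + 1) * n) := card_Lam n (k + 1)
  have hcG : Fintype.card (GG n k) = 2 ^ (4 ^ (k + 1) * n) := by
    rw [Fintype.card_fun, Fintype.card_bool, Fintype.card_fin]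
  have hcQ : Fintype.card (QQ n k) = 2 ^ (2 * 4 ^ (k + 1) * n) := by
    rw [Fintype.card_fun, Fintype.card_bool, Fintype.card_fin]
  have hcP : ∀ u : UU n l, Fintype.card (PU u) = 2 ^ (u.1.length ^ 2) := by
    intro u
    rw [Fintype.card_fun, Fintype.card_bool, Fintype.card_fin]
  have hinj : Function.Injective fun u : UU n l => u.1 := Subtype.val_injective
  have hcU : Fintype.card (UU n l) ≤ 2 ^ (l + 1) :=
    card_short (fun u : UU n l => u.1) hinj l fun u => u.2.2.1
  have h16 : 3 * Fintype.card (UU n l) ≤ 16 ^ l := by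
    have e1 : (16 : ℕ) ^ l = 2 ^ l * 8 ^ l := by
      rw [← mul_pow]
      norm_num
    have e2 : (8 : ℕ) ^ 1 ≤ 8 ^ l := Nat.pow_le_pow_right (by norm_num) hl1
    have e3 : (2 : ℕ) ^ (l + 1) = 2 ^ l * 2 := pow_succ _ _
    have e4 := Nat.mul_le_mul_left (2 ^ l) e2
    rw [e1]
    omega
  have h2n : (0 : ℝ) < 2 ^ n := by positivity
  obtain ⟨ω, hω⟩ := switching (S := sys pd0 D0 n k l) sys_rk sys_sz l ((2 * l ^ 2 + 1) * l + 1)
    (by rw [hcG]; positivity) (by rw [hcQ]; positivity) (fun u => by rw [hcP]; positivity)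
    le_rfl (by
      have h1 : (Fintype.card (II n k × GG n k) : ℝ) / Fintype.card (QQ n k) ≤
          1 / (2 ^ n : ℕ) := by
        refine ratio_le (by positivity) ?_
        rw [Fintype.card_prod, ← mul_assoc, hcI, hcG, ← pow_add, hcQ]
        refine le_of_eq (congrArg _ ?_)
        ring
      have h2 : (Fintype.card (II n k) : ℝ) / Fintype.card (GG n k) ≤ 1 / (2 ^ n : ℕ) := by
        refine ratio_le (by positivity) ?_
        rw [hcI, hcG]
      have h3 : ∑ u : UU n l, 1 / (Fintype.card (PU u) : ℝ) ≤ (l + 1) * (1 / (2 ^ n : ℕ)) := by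
        have h4 : ∀ u : UU n l, 1 / (Fintype.card (PU u) : ℝ) ≤
            1 / (2 : ℝ) ^ u.1.length * (1 / (2 ^ n : ℕ)) := by
          intro u
          rw [hcP, one_div_mul_one_div]
          push_cast
          rw [← pow_add]
          refine one_div_le_one_div_of_le (by positivity) ?_
          refine pow_le_pow_right₀ (by norm_num) ?_
          have := u.2.1
          nlinarith
        refine (Finset.sum_le_sum fun u _ => h4 u).trans ?_
        rw [← Finset.sum_mul]
        refine mul_le_mul_of_nonneg_right ?_ (by positivity)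
        exact sum_short (fun u : UU n l => u.1) hinj l fun u => u.2.2.1
      have h5 : (32 * ((2 * l ^ 2 + 1) * l + 1 : ℕ) * (2 * l ^ 2 : ℕ) : ℝ) * (l + 3) ≤
          2 ^ n := by
        have h6 : ((32 * ((2 * l ^ 2 + 1) * l + 1) * (2 * l ^ 2) * (l + 3) : ℕ) : ℝ) ≤
            ((2 ^ n : ℕ) : ℝ) := by
          exact_mod_cast hδ
        push_cast at h6 ⊢
        exact h6
      have h7 : ((sys pd0 D0 n k l).T : ℝ) = (2 * l ^ 2 : ℕ) := rfl
      rw [h7]
      calc (32 * ((2 * l ^ 2 + 1) * l + 1 : ℕ) * (2 * l ^ 2 : ℕ) : ℝ) *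
            (Fintype.card (II n k × GG n k) /
            Fintype.card (QQ n k) + Fintype.card (II n k) / Fintype.card (GG n k) +
            ∑ u : UU n l, 1 / (Fintype.card (PU u) : ℝ))
          ≤ (32 * ((2 * l ^ 2 + 1) * l + 1 : ℕ) * (2 * l ^ 2 : ℕ) : ℝ) *
            (1 / (2 ^ n : ℕ) + 1 / (2 ^ n : ℕ) + (l + 1) * (1 / (2 ^ n : ℕ))) :=
            mul_le_mul_of_nonneg_left (by linarith) (by positivity)
        _ = ((32 * ((2 * l ^ 2 + 1) * l + 1 : ℕ) * (2 * l ^ 2 : ℕ) : ℝ) * (l + 3)) / 2 ^ n := by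
            push_cast
            ring
        _ ≤ 1 := by
            rw [div_le_one h2n]
            exact h5) h16
  have hmain := noAlt (W := Wd B) n (l * l + ((B + 1) * k + 1)) hs (nxt cs (x0 n)) k
    (fun p v => AcceptsIn (Ow pd0 D0 n k l (zr ω.loc ω.sel v) ω.pad) M
      (nest (x0 n) (p.map Subtype.val)) [] (poly c0 (nest (x0 n) (p.map Subtype.val)).length))
    (by
      have h1 : Fintype.card (Wd B) ≤ 2 ^ (B + 1) :=
        card_short (fun w : Wd B => w.1) Subtype.val_injective B fun w => w.2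
      have h2 : Fintype.card (Wd B) ^ k ≤ 2 ^ ((B + 1) * k) := by
        rw [pow_mul]
        exact Nat.pow_le_pow_left h1 k
      have h3 : (16 : ℕ) ^ (l * l + ((B + 1) * k + 1)) =
          16 ^ (l * l) * 16 ^ ((B + 1) * k) * 16 := by
        rw [pow_add, pow_add]
        ring
      have h4 : (1 : ℕ) ≤ 16 ^ (l * l) := Nat.one_le_pow _ _ (by norm_num)
      have h5 : (2 : ℕ) ^ ((B + 1) * k) ≤ 16 ^ ((B + 1) * k) :=
        Nat.pow_le_pow_left (by norm_num) _
      rw [h3]
      calc 3 * Fintype.card (Wd B) ^ k ≤ 16 * 2 ^ ((B + 1) * k) :=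
            Nat.mul_le_mul (by norm_num) h2
        _ ≤ 16 * 16 ^ ((B + 1) * k) := Nat.mul_le_mul_left _ h5
        _ = 1 * 16 ^ ((B + 1) * k) * 16 := by ring
        _ ≤ _ := Nat.mul_le_mul_right _ (Nat.mul_le_mul_right _ h4))
    (by
      have : Nonempty (Wd B) := ⟨⟨[], Nat.zero_le _⟩⟩
      exact Fintype.card_pos)
    (fun p hp => by
      have h1 := nest_le (x0 n) p
      rw [x0_length, hp] at h1
      have h2 := poly_mono (c := c0) h1
      refine Crt.mono ?_ (crt_run hp0 ω hl1 hω M _ _ ?_)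
      · have h3 : poly c0 (nest (x0 n) (p.map Subtype.val)).length ≤ l := by omega
        have h4 := Nat.mul_le_mul_right l h3
        omega
      · omega)
  apply hmain
  intro v
  have h1 := hcon n k l (zr ω.loc ω.sel v) ω.pad hn0 hn1 (x0 n)
  unfold RqO at h1
  rw [not_not] at h1
  have h2 := sem_alt (O := Ow pd0 D0 n k l (zr ω.loc ω.sel v) ω.pad) (M := M) (c0 := c0)
    (B := B) cs (x0 n) cs [] [] n rfl rfl (le_of_eq (x0_length n)) (le_of_eq hB.symm)
  have h3 := evalb (b := bs (Ow pd0 D0 n k l (zr ω.loc ω.sel v) ω.pad)) (x0_length n) (k + 2) 0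
    (zr ω.loc ω.sel v : LL n k → Bool) hn (fun ws hws hlen => by
      show Ow pd0 D0 n k l _ _ (true :: fs (nest (x0 n) ws)) = true ↔ _
      have hL : IsLf n k (fs (nest (x0 n) ws)) ws := ⟨hws, rfl, by
        rw [fs_length]
        unfold Kd
        omega⟩
      rw [(isWorld_Ow hp0 _ _).free, Dz_leaf _ hL]
      show (!(zr ω.loc ω.sel v (lf n k ws))) = true ↔ zr ω.loc ω.sel v (lf n k ws) = false
      cases zr ω.loc ω.sel v (lf n k ws) <;> simp)
  have h4 := Fh_succ n (k + 1) ω.loc ω.sel v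
  exact h2.symm.trans (h1.trans (h3.trans (not_congr h4)))

end ESY.PHF
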