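import Pool.Agent.Lib.MP_b9add9_lc.PHF.Stage

/-!
# The system of the stage
-/

namespace ESY.PHF

open ESY ESY.Few Classical
open ESY.PHI (II GG QQ LL lf x0 x0_length nest nest_inj nest_length leaf zr zr_iff Lam
  Bit Lit TA Sys LT IsVal RkOk SzOk pst mem_pst TA.loc TA.sel TA.pad Crt
  sum_biUnion_le' biUnion_inst)

set_option linter.unusedSectionVars false

/-- the literals -/
abbrev LC (n k l : ℕ) : Type := Lit (II n k) (GG n k) (QQ n k) (fun u : UU n l => PU u)

variable {pd0 : Pads} {D0 : Oracle} {n k l : ℕ}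

/-- the literals of the value of a string -/
noncomputable def rl (β : BB n k l → Bool) (r : List Bool) : Finset (LC n k l) :=
  match role n k l r with
  | some b => {(b, β b)}
  | none => ∅

/-- the literals of a list of strings -/
noncomputable def tset (β : BB n k l → Bool) (A : List (List Bool)) : Finset (LC n k l) :=
  A.toFinset.biUnion (rl β)

theorem mem_tset {β : BB n k l → Bool} {A : List (List Bool)} {ℓ : LC n k l} :
    ℓ ∈ tset β A ↔ ∃ r ∈ A, role n k l r = some ℓ.1 ∧ ℓ.2 = β ℓ.1 := by
  unfold tset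
  rw [Finset.mem_biUnion]
  refine exists_congr fun r => ?_
  rw [List.mem_toFinset]
  refine and_congr_right fun _ => ?_
  unfold rl
  cases h : role n k l r with
  | none => simp
  | some b =>
    rw [Finset.mem_singleton]
    constructor
    · rintro rfl
      exact ⟨rfl, rfl⟩
    · rintro ⟨h1, h2⟩
      rw [Option.some.inj h1, ← h2]

/-- the queries of the statement `(e, x)` with witness `w` -/
noncomputable def qe (O : Oracle) (e : ℕ) (x w : List Bool) : List (List Bool) :=
  asked O (nu e).1 (tb e x) (start (nu e).1 x w)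

theorem qe_len (O : Oracle) (e : ℕ) (x w : List Bool) (hw : w.length ≤ tb e x) :
    ∀ s ∈ qe O e x w, s.length + 4 ≤ 2 * (stm e x).length := by
  intro s hs
  have h1 := asked_start_len O _ _ _ _ s hs
  have h2 : (stm e x).length = tb e x + 1 + (e + 1 + x.length) := stmt_length _ _ _
  have h3 : max x.length w.length ≤ max x.length (tb e x) := max_le_max le_rfl hw
  rcases le_total x.length (tb e x) with h | h
  · rw [max_eq_right h] at h3
    omega
  · rw [max_eq_left h] at h3
    omega

theorem qe_card (O : Oracle) (e : ℕ) (x w : List Bool) :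
    (qe O e x w).length + 2 ≤ (stm e x).length := by
  have h1 : (qe O e x w).length ≤ tb e x := asked_card _ _ _ _
  have h2 : (stm e x).length = tb e x + 1 + (e + 1 + x.length) := stmt_length _ _ _
  omega

/-- the system of the stage -/
noncomputable def sys (pd0 : Pads) (D0 : Oracle) (n k l : ℕ) :
    Sys (II n k) (GG n k) (QQ n k) (fun u : UU n l => PU u) where
  terms u := {τ | ∃ (e : ℕ) (x : List Bool) (β : BB n k l → Bool) (w : List Bool),
    u.1 = stm e x ∧ w.length ≤ tb e x ∧ AcceptsIn (Ob pd0 D0 β) (nu e).1 x w (tb e x) ∧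
    τ = tset β (qe (Ob pd0 D0 β) e x w)}
  rk u := u.1.length
  T := 2 * l ^ 2

theorem sys_rk : RkOk (sys pd0 D0 n k l) := by
  rintro u τ ⟨e, x, β, w, hu, hw, -, rfl⟩ u' r a h
  obtain ⟨s, h1, h2, -⟩ := mem_tset.1 h
  have h3 := role_len h2
  have h4 := qe_len _ e x w hw s h1
  rw [← hu] at h4
  have h5 : u'.1.length ≤ u'.1.length ^ 2 := Nat.le_self_pow (by norm_num) _
  change s.length = 2 * u'.1.length ^ 2 + u'.1.length + 2 at h3
  show u'.1.length < u.1.length
  omega

/-- the sizes -/
def sz (u : UU n l) : ℕ := 2 * u.1.length ^ 2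

theorem sys_sz : SzOk (sys pd0 D0 n k l) sz := by
  constructor
  · rintro u τ ⟨e, x, β, w, hu, hw, -, rfl⟩
    set A := qe (Ob pd0 D0 β) e x w with hA
    have h1 : (tset β A).card ≤ ∑ r ∈ A.toFinset, (rl β r).card := Finset.card_biUnion_le
    have h2 : ∑ u' ∈ (tset β A).biUnion pst, sz u' ≤
        ∑ r ∈ A.toFinset, ∑ u' ∈ (rl β r).biUnion pst, sz u' := by
      unfold tset
      rw [Finset.biUnion_biUnion]
      exact sum_biUnion_le' _ _ _
    have hm : 3 ≤ u.1.length := by
      rw [hu, stm, stmt_length]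
      have := qe_card (Ob pd0 D0 β) e x w
      by_contra hlt
      have h9 : tb e x + 1 + (e + 1 + x.length) < 3 := by
        have h10 : (stm e x).length = tb e x + 1 + (e + 1 + x.length) := stmt_length _ _ _
        omega
      have h10 : tb e x = 0 ∧ x.length = 0 := by omega
      have h11 : tb e x = poly (nu e).2 x.length := rfl
      rw [h10.2] at h11
      unfold poly at h11
      rcases hc : (nu e).2 with _ | c
      · rw [hc] at h11
        simp at h11
        omega
      · rw [hc] at h11
        omega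
    have h3 : ∀ r ∈ A.toFinset, (rl β r).card + ∑ u' ∈ (rl β r).biUnion pst, sz u' ≤
        2 * u.1.length - 4 := by
      intro r hr
      have h4 := qe_len _ e x w hw r (List.mem_toFinset.1 hr)
      rw [← hu] at h4
      unfold rl
      cases h5 : role n k l r with
      | none => simp
      | some b =>
        simp only [Finset.card_singleton, Finset.singleton_biUnion]
        rcases b with b | y
        · have : pst ((Sum.inl b : BB n k l), β (Sum.inl b)) = ∅ := by
            cases β (Sum.inl b) <;> rfl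
          rw [this]
          simp only [Finset.sum_empty]
          omega
        · have h6 := role_len h5
          cases β (Sum.inr y)
          · have : pst ((Sum.inr y : BB n k l), false) = ∅ := rfl
            rw [this]
            simp only [Finset.sum_empty]
            omega
          · have : pst ((Sum.inr y : BB n k l), true) = {y.1} := rfl
            rw [this, Finset.sum_singleton]
            unfold sz
            omega
    have h4 := Finset.sum_le_card_nsmul _ _ _ h3
    rw [Finset.sum_add_distrib, smul_eq_mul] at h4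
    have h5 : A.toFinset.card + 2 ≤ u.1.length := by
      have := List.toFinset_card_le A
      have h6 : A.length + 2 ≤ (stm e x).length := qe_card (Ob pd0 D0 β) e x w
      rw [← hu] at h6
      omega
    have h6 : A.toFinset.card * (2 * u.1.length - 4) ≤
        (u.1.length - 2) * (2 * u.1.length - 4) := Nat.mul_le_mul_right _ (by omega)
    have h7 : 1 + (u.1.length - 2) * (2 * u.1.length - 4) ≤ 2 * u.1.length ^ 2 := by
      obtain ⟨m, hm'⟩ : ∃ m, u.1.length = m + 2 := ⟨u.1.length - 2, by omega⟩
      rw [hm']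
      have e1 : m + 2 - 2 = m := by omega
      have e2 : 2 * (m + 2) - 4 = 2 * m := by omega
      rw [e1, e2]
      nlinarith
    have h9 : 1 + (tset β A).card + ∑ u' ∈ (tset β A).biUnion pst, sz u' ≤ sz u := by
      show _ ≤ 2 * u.1.length ^ 2
      omega
    have e9 := biUnion_inst (fun a b => propDecidable (a = b)) inferInstance (tset β A)
      (pst (P := fun u : UU n l => PU u))
    rw [← e9] at h9
    exact h9
  · intro u
    show 2 * u.1.length ^ 2 ≤ 2 * l ^ 2
    have := Nat.pow_le_pow_left u.2.2.1 2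
    omega

/-- the set of true statements -/
noncomputable def vl (pd0 : Pads) (D0 : Oracle)
    (ω : TA (II n k) (GG n k) (QQ n k) (fun u : UU n l => PU u)) (v : II n k → Bool) :
    UU n l → Prop := fun u => Trs (Ow pd0 D0 n k l (zr ω.loc ω.sel v) ω.pad) u.1

theorem LT_iff (ω : TA (II n k) (GG n k) (QQ n k) (fun u : UU n l => PU u)) (v : II n k → Bool)
    (b : BB n k l) (a : Bool) :
    LT ω v (vl pd0 D0 ω v) (b, a) ↔ bt pd0 D0 (zr ω.loc ω.sel v) ω.pad b = a := by
  rcases b with b | ⟨u, r⟩
  · obtain ⟨x, q⟩ := b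
    exact (iff_congr (zr_iff ω.loc ω.sel v (x, q)).symm Iff.rfl).trans Bool.eq_iff_iff.symm
  · exact (iff_congr decide_eq_true_iff.symm Iff.rfl).trans Bool.eq_iff_iff.symm

theorem isVal (hp0 : Len pd0) (ω : TA (II n k) (GG n k) (QQ n k) (fun u : UU n l => PU u))
    (v : II n k → Bool) : IsVal (sys pd0 D0 n k l) ω v (vl pd0 D0 ω v) := by
  intro u
  obtain ⟨e, x, hs⟩ := u.2.2.2
  set z := zr ω.loc ω.sel v with hz
  have hul := u.2.2.1
  constructor
  · intro h
    have h1 : Tr (Ow pd0 D0 n k l z ω.pad) e x := by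
      rw [← Trs_stm, ← hs]
      exact h
    obtain ⟨w, hw, ha⟩ := h1
    have h2 : ∀ r ∈ asked (Ow pd0 D0 n k l z ω.pad) (nu e).1 (tb e x)
        (start (nu e).1 x w), Ob pd0 D0 (bt pd0 D0 z ω.pad) r =
          Ow pd0 D0 n k l z ω.pad r := by
      intro r hr
      refine (Ow_eq hp0 z ω.pad ?_).symm
      have h3 := qe_len _ e x w hw r hr
      rw [← hs] at h3
      omega
    refine ⟨_, ⟨e, x, bt pd0 D0 z ω.pad, w, hs, hw, (accepts_congr h2).2 ha, rfl⟩,
      fun ℓ hℓ => ?_⟩
    obtain ⟨r, -, -, h4⟩ := mem_tset.1 hℓ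
    obtain ⟨b, a⟩ := ℓ
    rw [LT_iff]
    exact h4.symm
  · rintro ⟨τ, ⟨e', x', β, w, hs', hw, ha, rfl⟩, hl⟩
    have h1 : ∀ r ∈ asked (Ob pd0 D0 β) (nu e').1 (tb e' x')
        (start (nu e').1 x' w), Ow pd0 D0 n k l z ω.pad r = Ob pd0 D0 β r := by
      intro r hr
      have h3 := qe_len _ e' x' w hw r hr
      rw [← hs'] at h3
      rw [Ow_eq hp0 z ω.pad (by omega)]
      unfold Ob
      cases h4 : role n k l r with
      | none => rfl
      | some b =>
        have h5 : (b, β b) ∈ tset β (qe (Ob pd0 D0 β) e' x' w) := mem_tset.2 ⟨r, hr, h4, rfl⟩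
        have h6 := hl _ h5
        rw [LT_iff] at h6
        simp only
        rw [← h6]
    show Trs (Ow pd0 D0 n k l z ω.pad) u.1
    rw [hs', Trs_stm]
    exact ⟨w, hw, (accepts_congr h1).2 ha⟩

/-- the certificates of a computation -/
theorem crt_run (hp0 : Len pd0) (ω : TA (II n k) (GG n k) (QQ n k) (fun u : UU n l => PU u))
    {s : ℕ} (hs : 1 ≤ s)
    (hω : ∀ u v, ∃ D : Finset (II n k), D.card < s ∧ ∀ v', (∀ i ∈ D, v' i = v i) →
      ∀ val val', IsVal (sys pd0 D0 n k l) ω v val → IsVal (sys pd0 D0 n k l) ω v' val' →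
        (val u ↔ val' u))
    (M : Machine) (x : List Bool) (t : ℕ) (hl : x.length + t ≤ 2 * l) :
    Crt (t * s) fun v => AcceptsIn (Ow pd0 D0 n k l (zr ω.loc ω.sel v) ω.pad) M x [] t := by
  intro v
  set A := asked (Ow pd0 D0 n k l (zr ω.loc ω.sel v) ω.pad) M t (start M x []) with hA
  have hD : ∀ r : List Bool, ∃ D : Finset (II n k), D.card ≤ s ∧ ∀ v', (∀ i ∈ D, v' i = v i) →
      r.length ≤ 2 * l → Ow pd0 D0 n k l (zr ω.loc ω.sel v') ω.pad r =
        Ow pd0 D0 n k l (zr ω.loc ω.sel v) ω.pad r := by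
    intro r
    cases h1 : role n k l r with
    | none =>
      refine ⟨∅, by simp, fun v' _ hr => ?_⟩
      rw [Ow_eq hp0 _ _ hr, Ow_eq hp0 _ _ hr]
      unfold Ob
      rw [h1]
    | some b =>
      rcases b with b | y
      · refine ⟨{b.1.1}, by simpa using hs, fun v' hv' hr => ?_⟩
        rw [Ow_eq hp0 _ _ hr, Ow_eq hp0 _ _ hr]
        unfold Ob
        rw [h1]
        show (!(zr ω.loc ω.sel v' b)) = !(zr ω.loc ω.sel v b)
        congr 1
        rw [Bool.eq_iff_iff, zr_iff, zr_iff, hv' _ (Finset.mem_singleton_self _)]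
      · obtain ⟨D, hD1, hD2⟩ := hω y.1 v
        refine ⟨D, hD1.le, fun v' hv' hr => ?_⟩
        rw [Ow_eq hp0 _ _ hr, Ow_eq hp0 _ _ hr]
        unfold Ob
        rw [h1]
        show decide _ = decide _
        have h2 := hD2 v' hv' _ _ (isVal hp0 ω v) (isVal hp0 ω v')
        congr 1
        refine propext (and_congr_right fun _ => ?_)
        exact h2.symm
  choose D hD1 hD2 using hD
  refine ⟨A.toFinset.biUnion D, ?_, fun v' hv' => ?_⟩
  · refine (Finset.card_biUnion_le_card_mul _ _ s fun r _ => hD1 r).trans ?_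
    exact Nat.mul_le_mul_right _ ((List.toFinset_card_le A).trans (asked_card _ _ _ _))
  · refine (accepts_congr fun r hr => ?_).symm
    refine hD2 r v' (fun i hi => hv' i ?_) ?_
    · exact Finset.mem_biUnion.2 ⟨r, List.mem_toFinset.2 hr, hi⟩
    · exact (asked_len _ M _ _ _ (start_len M x [] _ le_rfl (Nat.zero_le _)) r hr).trans hl

end ESY.PHF
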